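import Pool.Agent.ZES.StmtsZ

/-!
ZES, row TRF: transfer of the hypotheses through the gauge transformation.
-/

namespace Pool.Agent.ZES.H52

open scoped BigOperators InnerProductSpace
open Pool.Agent.THS

/-- the gauge transformation as a linear equivalence -/
noncomputable def gau {g : ℕ} (Λ : (Fin g → ℂ) ≃L[ℂ] EuclideanSpace ℂ (Fin g))
    (β : (Fin g → ℂ) → ℂ) (n : ℕ) :
    ((Fin g → ℂ) → ℂ) ≃ₗ[ℂ] (EuclideanSpace ℂ (Fin g) → ℂ) where
  toFun F := fun v => F (Λ.symm v) * Complex.exp ((n : ℂ) * β (Λ.symm v))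
  map_add' F G := by
    funext v
    show (F (Λ.symm v) + G (Λ.symm v)) * Complex.exp ((n : ℂ) * β (Λ.symm v))
      = F (Λ.symm v) * Complex.exp ((n : ℂ) * β (Λ.symm v))
        + G (Λ.symm v) * Complex.exp ((n : ℂ) * β (Λ.symm v))
    ring
  map_smul' c F := by
    funext v
    show (c * F (Λ.symm v)) * Complex.exp ((n : ℂ) * β (Λ.symm v))
      = c * (F (Λ.symm v) * Complex.exp ((n : ℂ) * β (Λ.symm v)))
    ring
  invFun G := fun x => G (Λ x) * Complex.exp (-((n : ℂ) * β x))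
  left_inv F := by
    funext x
    show (F (Λ.symm (Λ x)) * Complex.exp ((n : ℂ) * β (Λ.symm (Λ x))))
      * Complex.exp (-((n : ℂ) * β x)) = F x
    rw [Λ.symm_apply_apply, mul_assoc, ← Complex.exp_add, add_neg_cancel, Complex.exp_zero,
      mul_one]
  right_inv G := by
    funext v
    show (G (Λ (Λ.symm v)) * Complex.exp (-((n : ℂ) * β (Λ.symm v))))
      * Complex.exp ((n : ℂ) * β (Λ.symm v)) = G v
    rw [Λ.apply_symm_apply, mul_assoc, ← Complex.exp_add, neg_add_cancel, Complex.exp_zero,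
      mul_one]

theorem gau_mul {g : ℕ} (Λ : (Fin g → ℂ) ≃L[ℂ] EuclideanSpace ℂ (Fin g))
    (β : (Fin g → ℂ) → ℂ) (n : ℕ) (a b : (Fin g → ℂ) → ℂ) :
    gau Λ β (2 * n) (a * b) = gau Λ β n a * gau Λ β n b := by
  funext v
  show (a (Λ.symm v) * b (Λ.symm v)) * Complex.exp (((2 * n : ℕ) : ℂ) * β (Λ.symm v))
    = (a (Λ.symm v) * Complex.exp ((n : ℂ) * β (Λ.symm v)))
      * (b (Λ.symm v) * Complex.exp ((n : ℂ) * β (Λ.symm v)))
  have h1 : ((2 * n : ℕ) : ℂ) * β (Λ.symm v)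
      = (n : ℂ) * β (Λ.symm v) + (n : ℂ) * β (Λ.symm v) := by
    push_cast; ring
  rw [h1, Complex.exp_add]
  ring

theorem trf (hDim : DimStmt) (hMul : MulStmt) (hRml : RmlStmt) : TrfStmt := by
  intro g τ hτ Λ L χ β _ hiff
  have hmem : ∀ (n : ℕ) (F : (Fin g → ℂ) → ℂ), F ∈ RR τ n ↔ gau Λ β n F ∈ TN L χ n := hiff
  refine ⟨?_, ?_, ?_⟩
  · intro e he h2 G hG
    obtain ⟨F, rfl⟩ := (gau Λ β (2 * (2 * e))).surjective G
    have hF : F ∈ RR τ (2 * (2 * e)) := (hmem _ F).2 hG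
    have h4 : 2 * (2 * e) = 4 * e := by ring
    have hF1 : F ∈ RR τ (4 * e) := by
      rw [← h4]; exact hF
    have hF2 := hMul g τ hτ e he h2 hF1
    refine Submodule.mul_induction_on
      (C := fun F => gau Λ β (2 * (2 * e)) F ∈ TN L χ (2 * e) * TN L χ (2 * e)) hF2 ?_ ?_
    · intro a ha b hb
      show gau Λ β (2 * (2 * e)) (a * b) ∈ TN L χ (2 * e) * TN L χ (2 * e)
      rw [gau_mul]
      exact Submodule.mul_mem_mul ((hmem _ a).1 ha) ((hmem _ b).1 hb)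
    · intro x y hx hy
      show gau Λ β (2 * (2 * e)) (x + y) ∈ TN L χ (2 * e) * TN L χ (2 * e)
      rw [map_add]
      exact add_mem hx hy
  · intro e he h2 x
    obtain ⟨F, hF, hF0⟩ := (hRml g τ hτ).2 e he h2 (Λ.symm x)
    exact ⟨gau Λ β e F, (hmem e F).1 hF, mul_ne_zero hF0 (Complex.exp_ne_zero _)⟩
  · intro n hn
    obtain ⟨-, hfin, hrank⟩ := hDim g τ n hn
    have hmap : (RR τ n).map (gau Λ β n).toLinearMap = TN L χ n := by
      ext G
      constructor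
      · rintro ⟨F, hF, rfl⟩
        exact (hmem n F).1 hF
      · intro hG
        obtain ⟨F, rfl⟩ := (gau Λ β n).surjective G
        exact ⟨F, (hmem n F).2 hG, rfl⟩
    have e : ↥(RR τ n) ≃ₗ[ℂ] ↥(TN L χ n) :=
      ((gau Λ β n).submoduleMap (RR τ n)).trans (LinearEquiv.ofEq _ _ hmap)
    exact ⟨Module.Finite.equiv e, by rw [← e.finrank_eq]; exact hrank⟩

end Pool.Agent.ZES.H52
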