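import Pool.Agent.ZES.StmtsG

/-!
ZES, row TAN: the tangent condition is translation invariant.
-/

namespace Pool.Agent.ZES.H52

theorem tan (pwd : PwdStmt) (adm : AdmStmt) (vmz : VmzStmt) (zgr : ZgrStmt) : TanStmt := by
  intro V _ _ E hE Γ m hm hS v z0 hz0 hv z hz f hf
  obtain ⟨Z, hZ, -, hΓZ, -⟩ := zgr V E hE Γ m hm hS
  obtain ⟨hd, -, -⟩ := pwd V E hE m
  have hzZ : z ∈ Z := by
    rw [← SetLike.mem_coe, hZ]; exact hz
  have hz0Z : z0 ∈ Z := by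
    rw [← SetLike.mem_coe, hZ]; exact hz0
  obtain ⟨y, hy⟩ : ∃ y : V, y = z - z0 := ⟨_, rfl⟩
  have hzy : z0 + y = z := by rw [hy]; abel
  have hyZ : y ∈ Z := by rw [hy]; exact Z.sub_mem hzZ hz0Z
  obtain ⟨q, hqE, hq0⟩ := hE.nbp (z0 - y)
  have hh : (fun x => f (x + y) * q (x - y) ^ m) ∈ E ^ (2 * m) ⊓ Van (Γ : Set V) := by
    refine ⟨((adm V E hE m f hf.1).1 q hqE y), ?_⟩
    intro x hx
    show f (x + y) * q (x - y) ^ m = 0
    have h1 : x + y ∈ Z := Z.add_mem (hΓZ hx) hyZ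
    have h2 : x + y ∈ Zr E (Γ : Set V) m := by
      rw [← hZ]; exact h1
    rw [h2 f hf, zero_mul]
  have h1 := (vmz V E hE (Γ : Set V) m hS _ hh z0 hz0).2 v hv
  have hqd : Differentiable ℂ q := hE.dif q hqE
  have e1 : HasFDerivAt (fun x => f (x + y)) (fderiv ℂ f z) z0 := by
    rw [hasFDerivAt_comp_add_right, hzy]
    exact (hd f hf.1 z).hasFDerivAt
  have e2 : DifferentiableAt ℂ (fun x => q (x - y) ^ m) z0 :=
    ((hqd.comp (differentiable_id.sub_const y)).pow m) z0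
  have e3 := e1.mul e2.hasFDerivAt
  have h0 : f (z0 + y) = 0 := by
    rw [hzy]; exact hz f hf
  have h2 : fderiv ℂ (fun x => f (x + y) * q (x - y) ^ m) z0
      = f (z0 + y) • fderiv ℂ (fun x => q (x - y) ^ m) z0 + (q (z0 - y) ^ m) • fderiv ℂ f z :=
    e3.fderiv
  rw [h2] at h1
  have h3 : f (z0 + y) * fderiv ℂ (fun x => q (x - y) ^ m) z0 v
      + q (z0 - y) ^ m * fderiv ℂ f z v = 0 := h1
  rw [h0, zero_mul, zero_add] at h3
  rcases mul_eq_zero.1 h3 with h4 | h4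
  · exact absurd h4 (pow_ne_zero m hq0)
  · exact h4

end Pool.Agent.ZES.H52
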